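import Pool.Agent.N929.OM.Stm
import Pool.Agent.N339.ON.Surg

set_option autoImplicit false

/-!
# OM/SURG: changing one face between two states of the path, in general domains
-/

namespace Pool.Agent.N67.OM

open Pool.Agent.N929.ON
open Pool.Agent.N929.OM (Inn)
open Pool.Agent.N339.ON (iter_val iter_inj agree)

theorem not_touch (hinj : S_INJ) {V : Finset (ℤ × ℤ)} {σ : ℤ × ℤ → Bool} {f : ℤ × ℤ} {s₀ u : St}
    {m p : ℕ} (hv : Val σ s₀) (h0 : ¬ Inn V s₀) (hu : (step σ)^[m] s₀ = u)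
    (ht : ∀ t, Val σ t → Tch f t → ∃ i, 0 < i ∧ i < p ∧ (step σ)^[i] u = t) (t : ℕ)
    (hI : ∀ i, 1 ≤ i → i ≤ m + p + t → Inn V ((step σ)^[i] s₀)) (t' : ℕ) (ht' : t' ≤ t) :
    ¬ Tch f ((step σ)^[m + p + t'] s₀) := by
  intro hc
  obtain ⟨i', hi0, hi', h⟩ := ht _ (iter_val hinj σ hv _) hc
  rw [← hu, ← Function.iterate_add_apply] at h
  have e : m + p + t' = (i' + m) + (p + t' - i') := by omega
  rw [e, Function.iterate_add_apply _ (i' + m)] at h
  have h2 := iter_inj hinj σ hv (iter_val hinj σ hv _) (i' + m) h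
  have h3 := hI (p + t' - i') (by omega) (by omega)
  rw [← h2] at h3
  exact h0 h3

theorem periodic_not_touch (hinj : S_INJ) {V : Finset (ℤ × ℤ)} {σ : ℤ × ℤ → Bool} {f : ℤ × ℤ}
    {s₀ u : St} {m p : ℕ} (hv : Val σ s₀) (h0 : ¬ Inn V s₀) (hu : (step σ)^[m] s₀ = u)
    (ht : ∀ t, Val σ t → Tch f t → ∃ i, 0 < i ∧ i < p ∧ (step σ)^[i] u = t) {s : St}
    (hs : Val σ s) {k : ℕ} (hk : 1 ≤ k) (hper : (step σ)^[k] s = s)
    (hO : ∀ j, Inn V ((step σ)^[j] s)) (j : ℕ) : ¬ Tch f ((step σ)^[j] s) := by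
  intro hc
  obtain ⟨i', _, hi', h⟩ := ht _ (iter_val hinj σ hs _) hc
  rw [← hu, ← Function.iterate_add_apply] at h
  have hp0 : (step σ)^[k] s₀ = s₀ := by
    apply iter_inj hinj σ (iter_val hinj σ hv _) hv (i' + m)
    rw [← Function.iterate_add_apply, add_comm, Function.iterate_add_apply, h,
      ← Function.iterate_add_apply, add_comm, Function.iterate_add_apply, hper]
  have hpN : ∀ N : ℕ, (step σ)^[k * N] s₀ = s₀ := by
    intro N
    rw [Function.iterate_mul]
    induction N with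
    | zero => rfl
    | succ N ih => rw [Function.iterate_succ_apply', ih, hp0]
  have hle : i' + m ≤ k * (i' + m) := Nat.le_mul_of_pos_left _ hk
  have h1 : s₀ = (step σ)^[k * (i' + m) - (i' + m) + j] s := by
    rw [Function.iterate_add_apply, ← h, ← Function.iterate_add_apply, Nat.sub_add_cancel hle, hpN]
  apply h0
  rw [h1]
  exact hO _

theorem loops_sub (hinj : S_INJ) {V : Finset (ℤ × ℤ)} {σ σ' : ℤ × ℤ → Bool} {f : ℤ × ℤ}
    (hf : ∀ g, g ≠ f → σ' g = σ g) {s₀ u : St} {m p : ℕ}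
    (hv : Val σ s₀) (h0 : ¬ Inn V s₀) (hu : (step σ)^[m] s₀ = u)
    (ht : ∀ t, Val σ t → Tch f t → ∃ i, 0 < i ∧ i < p ∧ (step σ)^[i] u = t) :
    Pool.Agent.N929.OM.loops V σ ⊆ Pool.Agent.N929.OM.loops V σ' := by
  rintro O ⟨s, hs, ⟨k, hk, hper⟩, rfl, hO⟩
  have h1 := periodic_not_touch hinj hv h0 hu ht hs hk hper (fun j => hO _ ⟨j, rfl⟩)
  have h2 : ∀ j, (step σ')^[j] s = (step σ)^[j] s := by
    intro j
    induction j with
    | zero => rfl
    | succ j ih =>
      rw [Function.iterate_succ_apply', Function.iterate_succ_apply', ih]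
      exact (agree hf (h1 j)).1
  refine ⟨s, (agree hf (h1 0)).2.mpr hs, ⟨k, hk, by rw [h2, hper]⟩, ?_, hO⟩
  ext t
  constructor
  · rintro ⟨i, hi⟩
    exact ⟨i, by rw [h2]; exact hi⟩
  · rintro ⟨i, hi⟩
    exact ⟨i, by rw [← h2]; exact hi⟩

theorem surg (hinj : S_INJ) : Pool.Agent.N929.OM.S_SURG := by
  intro V σ σ' f hf s₀ u v m p q hv hv' h0 hu hu' hp hq _ _ ht ht'
  refine ⟨?_, ?_⟩
  · intro t hI t'
    induction t' with
    | zero =>
      intro _
      rw [add_zero, add_zero, add_comm m q, add_comm m p, Function.iterate_add_apply,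
        Function.iterate_add_apply, hu, hu', hp, hq]
    | succ i ih =>
      intro hi
      rw [← add_assoc, ← add_assoc, Function.iterate_succ_apply', Function.iterate_succ_apply',
        ih (by omega)]
      exact (agree hf (not_touch hinj hv h0 hu ht t hI i (by omega))).1
  · apply Set.Subset.antisymm
    · exact loops_sub hinj (fun g hg => (hf g hg).symm) hv' h0 hu' ht'
    · exact loops_sub hinj hf hv h0 hu ht

end Pool.Agent.N67.OM
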